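import Pool.Agent.H18.QGR.Stmts

/-!
Board qgr (MP_286349_an), row ARC, helper46: left and right annihilation commute.
-/

set_option autoImplicit false

noncomputable section

namespace Pool.QGR

open Pool.CGR

namespace ARCAux

variable {m : ℕ} (q : Fin m → Fin m → ℝ)

lemma om_cons (j a : Fin m) (u : List (Fin m)) : om q j (a :: u) = (q j a : ℂ) * om q j u := by
  unfold om
  rw [List.map_cons, List.prod_cons]

lemma om_nil (j : Fin m) : om q j [] = 1 := by
  unfold om
  rw [List.map_nil, List.prod_nil]

/-- the letter removed -/
lemma om_erase (i j : Fin m) : ∀ (w : List (Fin m)) (k : ℕ), w[k]? = some j →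
    om q i w = (q i j : ℂ) * om q i (w.eraseIdx k) := by
  intro w
  induction w with
  | nil => intro k hk; simp at hk
  | cons a w ih =>
    intro k hk
    cases k with
    | zero =>
      rw [List.getElem?_cons_zero, Option.some.injEq] at hk
      rw [List.eraseIdx_zero, List.tail_cons, om_cons, hk]
    | succ k =>
      rw [List.getElem?_cons_succ] at hk
      rw [List.eraseIdx_cons_succ, om_cons, om_cons, ih k hk]
      ring

lemma cn_single (a : Fin m) (w : List (Fin m)) (c : ℂ) :
    cn a (Finsupp.single w c) = Finsupp.single (a :: w) c := by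
  unfold cn
  rw [Finsupp.lmapDomain_apply, Finsupp.mapDomain_single]

lemma an_single (j : Fin m) (w : List (Fin m)) : an q j (Finsupp.single w 1) =
    ∑ k ∈ Finset.range w.length,
      if w[k]? = some j then Finsupp.single (w.eraseIdx k) (om q j (w.take k)) else 0 := by
  unfold an
  rw [Finsupp.linearCombination_single, one_smul]

lemma ar_single (j : Fin m) (w : List (Fin m)) : ar q j (Finsupp.single w 1) =
    ∑ k ∈ Finset.range w.length,
      if w[k]? = some j then Finsupp.single (w.eraseIdx k) (om q j (w.drop (k + 1))) else 0 := by
  unfold ar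
  rw [Finsupp.linearCombination_single, one_smul]

/-- the diagonal operator -/
def Dg (i : Fin m) : E m →ₗ[ℂ] E m :=
  Finsupp.linearCombination ℂ fun w => Finsupp.single w (om q i w)

lemma Dg_single (i : Fin m) (w : List (Fin m)) (c : ℂ) :
    Dg q i (Finsupp.single w c) = Finsupp.single w (c * om q i w) := by
  unfold Dg
  rw [Finsupp.linearCombination_single, Finsupp.smul_single, smul_eq_mul]

lemma an_cons (j a : Fin m) (w : List (Fin m)) : an q j (Finsupp.single (a :: w) 1) =
    (if a = j then Finsupp.single w 1 else 0) +
      (q j a : ℂ) • cn a (an q j (Finsupp.single w 1)) := by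
  rw [an_single, an_single, List.length_cons, Finset.sum_range_succ', add_comm]
  congr 1
  · rw [List.getElem?_cons_zero, List.eraseIdx_zero, List.tail_cons, List.take_zero, om_nil]
    by_cases h : a = j
    · rw [if_pos h, if_pos (by rw [h])]
    · rw [if_neg h, if_neg (by rw [Option.some.injEq]; exact h)]
  · rw [map_sum, Finset.smul_sum]
    refine Finset.sum_congr rfl fun k _ => ?_
    rw [List.getElem?_cons_succ, List.eraseIdx_cons_succ, List.take_succ_cons, om_cons]
    by_cases h : w[k]? = some j
    · rw [if_pos h, if_pos h, cn_single, Finsupp.smul_single, smul_eq_mul]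
    · rw [if_neg h, if_neg h, map_zero, smul_zero]

lemma ar_cons (i a : Fin m) (w : List (Fin m)) : ar q i (Finsupp.single (a :: w) 1) =
    (if a = i then Dg q i (Finsupp.single w 1) else 0) +
      cn a (ar q i (Finsupp.single w 1)) := by
  rw [ar_single, ar_single, List.length_cons, Finset.sum_range_succ', add_comm]
  congr 1
  · rw [List.getElem?_cons_zero, List.eraseIdx_zero, List.tail_cons, List.drop_succ_cons,
      List.drop_zero, Dg_single, one_mul]
    by_cases h : a = i
    · rw [if_pos h, if_pos (by rw [h])]
    · rw [if_neg h, if_neg (by rw [Option.some.injEq]; exact h)]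
  · rw [map_sum]
    refine Finset.sum_congr rfl fun k _ => ?_
    rw [List.getElem?_cons_succ, List.eraseIdx_cons_succ, List.drop_succ_cons]
    by_cases h : w[k]? = some i
    · rw [if_pos h, if_pos h, cn_single]
    · rw [if_neg h, if_neg h, map_zero]

/-- two linear maps on `E m` which agree on the basis -/
lemma ext_single {S T : E m →ₗ[ℂ] E m}
    (h : ∀ w : List (Fin m), S (Finsupp.single w 1) = T (Finsupp.single w 1)) (f : E m) :
    S f = T f := by
  have : S = T := by
    refine Finsupp.lhom_ext fun w c => ?_
    have e : (Finsupp.single w c : E m) = c • Finsupp.single w 1 := by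
      rw [Finsupp.smul_single, smul_eq_mul, mul_one]
    rw [e, map_smul, map_smul, h]
  rw [this]

lemma an_cn (j a : Fin m) (f : E m) : an q j (cn a f) =
    (if a = j then f else 0) + (q j a : ℂ) • cn a (an q j f) := by
  have h := ext_single (S := (an q j).comp (cn a))
    (T := (if a = j then LinearMap.id else 0) + (q j a : ℂ) • (cn a).comp (an q j))
    (fun w => by
      rw [LinearMap.comp_apply, cn_single, an_cons, LinearMap.add_apply, LinearMap.smul_apply,
        LinearMap.comp_apply]
      by_cases h : a = j
      · rw [if_pos h, if_pos h]; rfl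
      · rw [if_neg h, if_neg h]; rfl) f
  rw [LinearMap.comp_apply, LinearMap.add_apply, LinearMap.smul_apply,
    LinearMap.comp_apply] at h
  rw [h]
  by_cases h : a = j
  · rw [if_pos h, if_pos h]; rfl
  · rw [if_neg h, if_neg h]; rfl

lemma ar_cn (i a : Fin m) (f : E m) : ar q i (cn a f) =
    (if a = i then Dg q i f else 0) + cn a (ar q i f) := by
  have h := ext_single (S := (ar q i).comp (cn a))
    (T := (if a = i then Dg q i else 0) + (cn a).comp (ar q i))
    (fun w => by
      rw [LinearMap.comp_apply, cn_single, ar_cons, LinearMap.add_apply,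
        LinearMap.comp_apply]
      by_cases h : a = i
      · rw [if_pos h, if_pos h]
      · rw [if_neg h, if_neg h]; rfl) f
  rw [LinearMap.comp_apply, LinearMap.add_apply, LinearMap.comp_apply] at h
  rw [h]
  by_cases h : a = i
  · rw [if_pos h, if_pos h]
  · rw [if_neg h, if_neg h]; rfl

/-- the diagonal operator after annihilation -/
lemma Dg_an (i j : Fin m) (w : List (Fin m)) :
    (q i j : ℂ) • Dg q i (an q j (Finsupp.single w 1)) =
      om q i w • an q j (Finsupp.single w 1) := by
  rw [an_single, map_sum, Finset.smul_sum, Finset.smul_sum]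
  refine Finset.sum_congr rfl fun k _ => ?_
  by_cases h : w[k]? = some j
  · rw [if_pos h, Dg_single, Finsupp.smul_single, Finsupp.smul_single, smul_eq_mul, smul_eq_mul,
      om_erase q i j w k h]
    congr 1
    ring
  · rw [if_neg h, map_zero, smul_zero, smul_zero]

end ARCAux

open ARCAux

theorem arc_thm : ARCStmt := by
  intro m q hq i j f
  have key : ∀ w : List (Fin m), an q j (ar q i (Finsupp.single w 1)) =
      ar q i (an q j (Finsupp.single w 1)) := by
    intro w
    induction w with
    | nil =>
      rw [ar_single, an_single]
      simp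
    | cons a w ih =>
      rw [ar_cons, an_cons, map_add, map_add, an_cn, map_smul, ar_cn, ih]
      by_cases hi : a = i
      · rw [if_pos hi, if_pos hi, Dg_single, one_mul]
        have e1 : an q j (Finsupp.single w (om q i w)) = om q i w • an q j (Finsupp.single w 1) := by
          rw [← map_smul, Finsupp.smul_single, smul_eq_mul, mul_one]
        have e2 : (q j a : ℂ) • Dg q i (an q j (Finsupp.single w 1)) =
            om q i w • an q j (Finsupp.single w 1) := by
          rw [← Dg_an q i j w, hi, hq j i]
        rw [e1, smul_add, e2]
        by_cases hj : a = j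
        · rw [if_pos hj, if_pos hj]
          abel
        · rw [if_neg hj, if_neg hj, map_zero]
          abel
      · rw [if_neg hi, if_neg hi, map_zero, zero_add, zero_add]
        by_cases hj : a = j
        · rw [if_pos hj, if_pos hj]
        · rw [if_neg hj, if_neg hj, map_zero]
  exact ext_single (S := (an q j).comp (ar q i)) (T := (ar q i).comp (an q j)) key f

end Pool.QGR
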