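import Pool.Agent.H46.QGR.ARC

/-!
Board qgr (MP_286349_an), row COM, helper46: left and right field operators commute.
-/

set_option autoImplicit false

noncomputable section

namespace Pool.QGR

open Pool.CGR

namespace COMAux

open ARCAux

variable {m : ℕ} (q : Fin m → Fin m → ℝ)

lemma sn_single (a : Fin m) (w : List (Fin m)) (c : ℂ) :
    sn a (Finsupp.single w c) = Finsupp.single (w ++ [a]) c := by
  unfold sn
  rw [Finsupp.lmapDomain_apply, Finsupp.mapDomain_single]

lemma cn_sn (i j : Fin m) (f : E m) : cn j (sn i f) = sn i (cn j f) := by
  refine ext_single (S := (cn j).comp (sn i)) (T := (sn i).comp (cn j)) (fun w => ?_) f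
  rw [LinearMap.comp_apply, LinearMap.comp_apply, cn_single, sn_single, sn_single, cn_single,
    List.cons_append]

lemma an_snw (i j : Fin m) (w : List (Fin m)) : an q j (sn i (Finsupp.single w 1)) =
    sn i (an q j (Finsupp.single w 1)) + (if i = j then Dg q j (Finsupp.single w 1) else 0) := by
  rw [sn_single, an_single, an_single, List.length_append, List.length_singleton,
    Finset.sum_range_succ]
  congr 1
  · rw [map_sum]
    refine Finset.sum_congr rfl fun k hk => ?_
    have hk' := Finset.mem_range.1 hk
    rw [List.getElem?_append_left hk', List.eraseIdx_append_of_lt_length hk',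
      List.take_append_of_le_length hk'.le]
    by_cases h : w[k]? = some j
    · rw [if_pos h, if_pos h, sn_single]
    · rw [if_neg h, if_neg h, map_zero]
  · rw [List.getElem?_append_right le_rfl, Nat.sub_self, List.getElem?_cons_zero,
      List.eraseIdx_append_of_length_le le_rfl, Nat.sub_self, List.eraseIdx_zero, List.tail_cons,
      List.append_nil, List.take_left, Dg_single, one_mul]
    by_cases h : i = j
    · rw [if_pos h, if_pos (by rw [h])]
    · rw [if_neg h, if_neg (by rw [Option.some.injEq]; exact h)]

lemma an_sn (i j : Fin m) (f : E m) : an q j (sn i f) =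
    sn i (an q j f) + (if i = j then Dg q j f else 0) := by
  have h := ext_single (S := (an q j).comp (sn i))
    (T := (sn i).comp (an q j) + (if i = j then Dg q j else 0))
    (fun w => by
      rw [LinearMap.comp_apply, an_snw, LinearMap.add_apply, LinearMap.comp_apply]
      by_cases h : i = j
      · rw [if_pos h, if_pos h]
      · rw [if_neg h, if_neg h]; rfl) f
  rw [LinearMap.comp_apply, LinearMap.add_apply, LinearMap.comp_apply] at h
  rw [h]
  by_cases h : i = j
  · rw [if_pos h, if_pos h]
  · rw [if_neg h, if_neg h]; rfl

end COMAux

open ARCAux COMAux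

theorem com_thm (hARC : ARCStmt) : COMStmt := by
  intro m q hq i j f
  unfold X Xr
  rw [LinearMap.add_apply, LinearMap.add_apply, LinearMap.add_apply, LinearMap.add_apply,
    map_add, map_add, map_add, map_add, cn_sn, an_sn, hARC m q hq i j f, ar_cn]
  by_cases h : i = j
  · subst h
    rw [if_pos rfl]
    abel
  · rw [if_neg h, if_neg (fun h' => h h'.symm)]
    abel

end Pool.QGR
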